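import Pool.Agent.H143.MDS.Mono

/-!
Uniform matroids representable over `GF(q)`, `q` even: representable over `GF(q')` for all
`q' > q` if the rank or the corank is at most `q' - q + m`, `m` about the square root of `q`.
-/

set_option autoImplicit false

namespace Pool.Agent.Results.MP_f1416a_co.EvenFields

open Pool.Agent.H143.MDS

theorem result (F F' : Type) [Field F] [Fintype F] [CharP F 2] [Field F'] [Fintype F']
    (m r n : ℕ) (hq : 32 ≤ Fintype.card F) (hF : Fintype.card F < Fintype.card F') (hm : 4 ≤ m)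
    (hmq : (m + 1) ^ 2 ≤ Fintype.card F ∨ 3 * (m - 3) ^ 2 + 2 ≤ Fintype.card F + 5 * (m - 3))
    (h : r + Fintype.card F ≤ m + Fintype.card F' ∨ n + Fintype.card F ≤ r + m + Fintype.card F')
    (hr : ∃ v : Fin n → Fin r → F, ∀ s : Finset (Fin n), s.card ≤ r →
      LinearIndependent F (fun i : s => v i)) :
    ∃ w : Fin n → Fin r → F', ∀ s : Finset (Fin n), s.card ≤ r →
      LinearIndependent F' (fun i : s => w i) :=
  rep_mono hF ⟨hq, hm, hmq⟩ h hr

end Pool.Agent.Results.MP_f1416a_co.EvenFields
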